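import Mathlib

/-!
The languages of FC[REG] conjunctive queries are closed under union:
`L(FC[REG]-CQ) = L(FC[REG]-UCQ)`.
-/

namespace Pool.Agent.Results.MP_c07d1e_lc.UnionClosed

/-- Conjunctive queries over the alphabet `A` with variables in `X`: a finite list of equations
`x ≐ α` (`α` a word over letters and variables) and a finite list of regular constraints. -/
structure CQ (A X : Type) where
  /-- the equations -/
  eqs : List (X × List (A ⊕ X))
  /-- the regular constraints -/
  regs : List (X × Language A)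
  /-- the constraints are regular -/
  regular : ∀ p ∈ regs, p.2.IsRegular

variable {A X : Type}

/-- The value of a pattern under a substitution. -/
def ev (σ : X → List A) (α : List (A ⊕ X)) : List A :=
  α.flatMap (Sum.elim (fun a => [a]) σ)

/-- The substitution satisfies all equations and constraints. -/
def CQ.Holds (φ : CQ A X) (σ : X → List A) : Prop :=
  (∀ p ∈ φ.eqs, σ p.1 = ev σ p.2) ∧ ∀ p ∈ φ.regs, σ p.1 ∈ p.2

/-- All variables are mapped to factors of the value of the universe variable. -/
def Safe (w : X) (σ : X → List A) : Prop := ∀ x, σ x <:+: σ w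

/-- The language of a conjunctive query with universe variable `w`. -/
def CQ.lang (w : X) (φ : CQ A X) : Set (List A) := {u | ∃ σ, σ w = u ∧ Safe w σ ∧ φ.Holds σ}

/-- Predicates on substitutions which are conjunctions of equations and regular constraints. -/
inductive Def : ((X → List A) → Prop) → Prop
  | top : Def (fun _ => True)
  | eq (x : X) (α : List (A ⊕ X)) : Def (fun σ => σ x = ev σ α)
  | reg (x : X) (L : Language A) (h : L.IsRegular) : Def (fun σ => σ x ∈ L)
  | and {P Q : (X → List A) → Prop} (h1 : Def P) (h2 : Def Q) : Def (fun σ => P σ ∧ Q σ)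

lemma Def.exists_cq {P : (X → List A) → Prop} (h : Def P) :
    ∃ φ : CQ A X, ∀ σ, φ.Holds σ ↔ P σ := by
  induction h with
  | top => exact ⟨⟨[], [], by simp⟩, fun σ => by simp [CQ.Holds]⟩
  | eq x α => exact ⟨⟨[(x, α)], [], by simp⟩, fun σ => by simp [CQ.Holds]⟩
  | reg x L h => exact ⟨⟨[], [(x, L)], by simpa using h⟩, fun σ => by simp [CQ.Holds]⟩
  | and _ _ ih1 ih2 =>
    obtain ⟨φ1, h1⟩ := ih1
    obtain ⟨φ2, h2⟩ := ih2
    refine ⟨⟨φ1.eqs ++ φ2.eqs, φ1.regs ++ φ2.regs, ?_⟩, fun σ => ?_⟩
    · intro p hp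
      rcases List.mem_append.1 hp with hp | hp
      · exact φ1.regular p hp
      · exact φ2.regular p hp
    · change _ ↔ _ ∧ _
      rw [← h1, ← h2]
      simp only [CQ.Holds, List.mem_append]
      constructor
      · rintro ⟨h3, h4⟩
        exact ⟨⟨fun p hp => h3 p (Or.inl hp), fun p hp => h4 p (Or.inl hp)⟩,
          ⟨fun p hp => h3 p (Or.inr hp), fun p hp => h4 p (Or.inr hp)⟩⟩
      · rintro ⟨⟨h3, h4⟩, h5, h6⟩
        exact ⟨fun p hp => hp.elim (h3 p) (h5 p), fun p hp => hp.elim (h4 p) (h6 p)⟩

lemma Def.list {ι : Type} {P : ι → (X → List A) → Prop} (l : List ι) (h : ∀ i ∈ l, Def (P i)) :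
    Def (fun σ => ∀ i ∈ l, P i σ) := by
  induction l with
  | nil => convert Def.top (A := A) (X := X) using 2; simp
  | cons i l ih =>
    have h1 := Def.and (h i (by simp)) (ih fun j hj => h j (List.mem_cons_of_mem _ hj))
    convert h1 using 2
    simp

lemma Def.congr {P Q : (X → List A) → Prop} (h : Def P) (hPQ : ∀ σ, P σ ↔ Q σ) : Def Q := by
  have : P = Q := by funext σ; exact propext (hPQ σ)
  rwa [← this]

/-- Renaming the variables. -/
lemma rename {Y : Type} (e : X ≃ Y) (w : X) (φ : CQ A X) :
    ∃ ψ : CQ A Y, ψ.lang (e w) = φ.lang w := by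
  refine ⟨⟨φ.eqs.map fun p => (e p.1, p.2.map (Sum.map id e)),
    φ.regs.map fun p => (e p.1, p.2), ?_⟩, ?_⟩
  · intro p hp
    obtain ⟨q, hq, rfl⟩ := List.mem_map.1 hp
    exact φ.regular q hq
  · have hev : ∀ (σ : Y → List A) (α : List (A ⊕ X)),
        ev σ (α.map (Sum.map id e)) = ev (σ ∘ e) α := by
      intro σ α
      simp only [ev, List.flatMap_map]
      congr 1
      funext x
      rcases x with a | x <;> rfl
    ext u
    constructor
    · rintro ⟨σ, h1, h2, h3, h4⟩
      refine ⟨σ ∘ e, h1, fun x => h2 (e x), fun p hp => ?_, fun p hp => ?_⟩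
      · have := h3 _ (List.mem_map.2 ⟨p, hp, rfl⟩)
        simp only [hev] at this
        exact this
      · exact h4 _ (List.mem_map.2 ⟨p, hp, rfl⟩)
    · rintro ⟨σ, h1, h2, h3, h4⟩
      have he : (σ ∘ e.symm) ∘ e = σ := by funext x; simp
      refine ⟨σ ∘ e.symm, by simpa using h1, fun x => ?_, fun p hp => ?_, fun p hp => ?_⟩
      · simpa using h2 (e.symm x)
      · obtain ⟨q, hq, rfl⟩ := List.mem_map.1 hp
        simp only [hev, he]
        simpa using h3 q hq
      · obtain ⟨q, hq, rfl⟩ := List.mem_map.1 hp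
        simpa using h4 q hq

/-! ### Regular languages -/

lemma regular_of_classes {L : Language A} {ι : Type} [Finite ι] (g : List A → ι)
    (h : ι → Language A) (hg : ∀ x, L.leftQuotient x = h (g x)) : L.IsRegular := by
  refine Language.IsRegular.of_finite_range_leftQuotient ((Set.finite_range h).subset ?_)
  rintro _ ⟨x, rfl⟩
  exact ⟨g x, (hg x).symm⟩

/-- Words of even length. -/
def Ev (A : Type) : Language A := {x | Even x.length}

/-- The empty word and the words of odd length. -/
def Od (A : Type) : Language A := {x | x = [] ∨ Odd x.length}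

/-- Words of length at most one. -/
def Le1 (A : Type) : Language A := {x | x.length ≤ 1}

lemma reg_len {L : Language A} (k : ℕ) (P : ℕ → Prop) (hL : ∀ x, x ∈ L ↔ P x.length)
    (hk : ∀ n, P (n + k + 2) ↔ P (n + k)) : L.IsRegular := by
  have h1 : ∀ m n, P (n + k + 2 * m) ↔ P (n + k) := by
    intro m
    induction m with
    | zero => intro n; simp
    | succ m ih =>
      intro n
      have : n + k + 2 * (m + 1) = (n + 2 * m) + k + 2 := by ring
      rw [this, hk, show n + 2 * m + k = n + k + 2 * m by ring, ih]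
  refine regular_of_classes (ι := Fin (k + 2))
    (fun x => if h : x.length < k then ⟨x.length, by omega⟩ else
      ⟨k + (x.length - k) % 2, by have := Nat.mod_lt (x.length - k) (show 0 < 2 by norm_num); omega⟩)
    (fun i => {y | P (i + y.length)}) ?_
  intro x
  ext y
  rw [Language.mem_leftQuotient, hL, List.length_append]
  by_cases h : x.length < k
  · simp only [dif_pos h]; rfl
  · simp only [dif_neg h]
    change P _ ↔ P _
    have h2 : x.length + y.length = ((x.length - k) % 2 + y.length) + k +
        2 * ((x.length - k) / 2) := by omega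
    rw [h2, h1]
    rw [show (x.length - k) % 2 + y.length + k = k + (x.length - k) % 2 + y.length by ring]

lemma reg_Ev : (Ev A).IsRegular :=
  reg_len 0 (fun n => Even n) (fun _ => Iff.rfl) (fun n => by
    simp only [Nat.even_iff]; omega)

lemma reg_Od : (Od A).IsRegular :=
  reg_len 1 (fun n => n = 0 ∨ Odd n) (fun x => by
    change x = [] ∨ _ ↔ _
    rw [List.length_eq_zero_iff]) (fun n => by
    simp only [Nat.odd_iff]; omega)

lemma reg_Le1 : (Le1 A).IsRegular :=
  reg_len 2 (fun n => n ≤ 1) (fun _ => Iff.rfl) (fun n => by omega)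

/-- Equation between a variable and a concatenation of variables. -/
lemma Def.eqv (x : X) (l : List X) : Def (fun σ : X → List A => σ x = l.flatMap σ) := by
  refine (Def.eq x (l.map Sum.inr)).congr fun σ => ?_
  simp only [ev, List.flatMap_map]
  rfl

/-- `A` is the first letter of `v` (and empty if `v` is empty); `f 0, …, f 5` are auxiliary. -/
def First (σ : X → List A) (f : ℕ → X) (v a : X) : Prop :=
  ((σ v = σ (f 0) ++ σ (f 1) ∧ σ (f 0) = σ (f 2) ++ σ (f 3)) ∧
    (σ (f 1) = σ (f 4) ++ σ (f 5) ∧ σ a = σ (f 2) ++ σ (f 4))) ∧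
  (((σ (f 0) ∈ Ev A ∧ σ (f 1) ∈ Od A) ∧ (σ (f 3) ∈ Od A ∧ σ (f 5) ∈ Ev A)) ∧ σ a ∈ Le1 A)

/-- `A` is the last letter of `v` (and empty if `v` is empty); `f 0, …, f 5` are auxiliary. -/
def Last (σ : X → List A) (f : ℕ → X) (v a : X) : Prop :=
  ((σ v = σ (f 0) ++ σ (f 1) ∧ σ (f 0) = σ (f 3) ++ σ (f 2)) ∧
    (σ (f 1) = σ (f 5) ++ σ (f 4) ∧ σ a = σ (f 2) ++ σ (f 4))) ∧
  (((σ (f 0) ∈ Ev A ∧ σ (f 1) ∈ Od A) ∧ (σ (f 3) ∈ Od A ∧ σ (f 5) ∈ Ev A)) ∧ σ a ∈ Le1 A)

lemma Def.eq2 (x y z : X) : Def (fun σ : X → List A => σ x = σ y ++ σ z) :=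
  (Def.eqv x [y, z]).congr fun σ => by simp

lemma Def.first (f : ℕ → X) (v a : X) : Def (fun σ : X → List A => First σ f v a) :=
  ((((Def.eq2 _ _ _).and (Def.eq2 _ _ _)).and ((Def.eq2 _ _ _).and (Def.eq2 _ _ _))).and
    ((((Def.reg _ _ reg_Ev).and (Def.reg _ _ reg_Od)).and
      ((Def.reg _ _ reg_Od).and (Def.reg _ _ reg_Ev))).and (Def.reg _ _ reg_Le1)))

lemma Def.last (f : ℕ → X) (v a : X) : Def (fun σ : X → List A => Last σ f v a) :=
  ((((Def.eq2 _ _ _).and (Def.eq2 _ _ _)).and ((Def.eq2 _ _ _).and (Def.eq2 _ _ _))).and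
    ((((Def.reg _ _ reg_Ev).and (Def.reg _ _ reg_Od)).and
      ((Def.reg _ _ reg_Od).and (Def.reg _ _ reg_Ev))).and (Def.reg _ _ reg_Le1)))

lemma ev_od {x : List A} (h1 : x ∈ Ev A) (h2 : x ∈ Od A) : x = [] := by
  rcases h2 with h | h
  · exact h
  · exact absurd h1 (Nat.not_even_iff_odd.2 h)

lemma First.ne {σ : X → List A} {f : ℕ → X} {v a : X} (h : First σ f v a) (hv : σ v ≠ []) :
    σ a ≠ [] := by
  obtain ⟨⟨⟨h1, h2⟩, h3, h4⟩, ⟨⟨h5, h6⟩, h7, h8⟩, h9⟩ := h
  intro ha
  rw [ha] at h4
  obtain ⟨h10, h11⟩ := List.append_eq_nil_iff.1 h4.symm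
  rw [h10, List.nil_append] at h2
  rw [h11, List.nil_append] at h3
  have h12 := ev_od h5 (h2 ▸ h7)
  have h13 := ev_od (h3 ▸ h8) h6
  apply hv
  rw [h1, h12, h13]; rfl

lemma Last.ne {σ : X → List A} {f : ℕ → X} {v a : X} (h : Last σ f v a) (hv : σ v ≠ []) :
    σ a ≠ [] := by
  obtain ⟨⟨⟨h1, h2⟩, h3, h4⟩, ⟨⟨h5, h6⟩, h7, h8⟩, h9⟩ := h
  intro ha
  rw [ha] at h4
  obtain ⟨h10, h11⟩ := List.append_eq_nil_iff.1 h4.symm
  rw [h10, List.append_nil] at h2
  rw [h11, List.append_nil] at h3
  have h12 := ev_od h5 (h2 ▸ h7)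
  have h13 := ev_od (h3 ▸ h8) h6
  apply hv
  rw [h1, h12, h13]; rfl

open Classical in
/-- The values of the auxiliary variables of `First`. -/
noncomputable def fval (v : List A) : ℕ → List A
  | 0 => if Even v.length then v else []
  | 1 => if Even v.length then [] else v
  | 2 => if Even v.length then v.take 1 else []
  | 3 => if Even v.length then v.drop 1 else []
  | 4 => if Even v.length then [] else v.take 1
  | 5 => if Even v.length then [] else v.drop 1
  | _ => []

open Classical in
/-- The values of the auxiliary variables of `Last`. -/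
noncomputable def lval (v : List A) : ℕ → List A
  | 0 => if Even v.length then v else []
  | 1 => if Even v.length then [] else v
  | 2 => if Even v.length then v.drop (v.length - 1) else []
  | 3 => if Even v.length then v.take (v.length - 1) else []
  | 4 => if Even v.length then [] else v.drop (v.length - 1)
  | 5 => if Even v.length then [] else v.take (v.length - 1)
  | _ => []

lemma fval_infix (v : List A) (k : ℕ) : fval v k <:+: v := by
  unfold fval
  split <;> (try split_ifs) <;>
    first
    | exact List.infix_refl _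
    | exact List.nil_infix
    | exact (List.take_prefix _ _).isInfix
    | exact (List.drop_suffix _ _).isInfix

lemma lval_infix (v : List A) (k : ℕ) : lval v k <:+: v := by
  unfold lval
  split <;> (try split_ifs) <;>
    first
    | exact List.infix_refl _
    | exact List.nil_infix
    | exact (List.take_prefix _ _).isInfix
    | exact (List.drop_suffix _ _).isInfix

lemma first_of_fval {σ : X → List A} {f : ℕ → X} {v a : X}
    (h : ∀ k < 6, σ (f k) = fval (σ v) k) (ha : σ a = (σ v).take 1) : First σ f v a := by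
  unfold First
  simp only [h 0 (by norm_num), h 1 (by norm_num), h 2 (by norm_num), h 3 (by norm_num),
    h 4 (by norm_num), h 5 (by norm_num), ha, fval]
  by_cases he : Even (σ v).length
  · simp only [if_pos he]
    refine ⟨⟨⟨by simp, (List.take_append_drop 1 _).symm⟩, by simp, by simp⟩,
      ⟨⟨he, Or.inl rfl⟩, ?_, by change Even 0; decide⟩, by change _ ≤ 1; simp⟩
    rcases Nat.eq_zero_or_pos (σ v).length with h0 | h0
    · left; rw [List.length_eq_zero_iff.1 h0]; rfl
    · right
      rw [List.length_drop]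
      exact Nat.Even.sub_odd h0 he (by decide)
  · simp only [if_neg he]
    have ho := Nat.not_even_iff_odd.1 he
    refine ⟨⟨⟨by simp, by simp⟩, (List.take_append_drop 1 _).symm, by simp⟩,
      ⟨⟨by change Even 0; decide, Or.inr ho⟩, Or.inl rfl, ?_⟩, by change _ ≤ 1; simp⟩
    change Even _
    rw [List.length_drop]
    exact Nat.Odd.sub_odd ho (by decide)

lemma last_of_lval {σ : X → List A} {f : ℕ → X} {v a : X}
    (h : ∀ k < 6, σ (f k) = lval (σ v) k) (ha : σ a = (σ v).drop ((σ v).length - 1)) :
    Last σ f v a := by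
  unfold Last
  simp only [h 0 (by norm_num), h 1 (by norm_num), h 2 (by norm_num), h 3 (by norm_num),
    h 4 (by norm_num), h 5 (by norm_num), ha, lval]
  by_cases he : Even (σ v).length
  · simp only [if_pos he]
    refine ⟨⟨⟨by simp, (List.take_append_drop _ _).symm⟩, by simp, by simp⟩,
      ⟨⟨he, Or.inl rfl⟩, ?_, by change Even 0; decide⟩, by change _ ≤ 1; simp; omega⟩
    rcases Nat.eq_zero_or_pos (σ v).length with h0 | h0
    · left; rw [List.length_eq_zero_iff.1 h0]; rfl
    · right
      rw [List.length_take, Nat.min_eq_left (Nat.sub_le _ _)]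
      exact Nat.Even.sub_odd h0 he (by decide)
  · simp only [if_neg he]
    have ho := Nat.not_even_iff_odd.1 he
    refine ⟨⟨⟨by simp, by simp⟩, (List.take_append_drop _ _).symm, by simp⟩,
      ⟨⟨by change Even 0; decide, Or.inr ho⟩, Or.inl rfl, ?_⟩, by change _ ≤ 1; simp; omega⟩
    change Even _
    rw [List.length_take, Nat.min_eq_left (Nat.sub_le _ _)]
    exact Nat.Odd.sub_odd ho (by decide)

/-- If `w` is nonempty then `y` is nonempty. -/
def NE (σ : X → List A) (f : ℕ → X) (w y : X) : Prop :=
  ((σ w = σ (f 0) ++ σ (f 1) ∧ σ (f 1) = σ (f 2) ++ σ (f 3)) ∧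
    (Last σ (fun k => f (20 + k)) w (f 3) ∧ First σ (fun k => f (10 + k)) (f 1) (f 4))) ∧
    σ y = σ (f 4) ++ σ (f 5)

lemma Def.ne (f : ℕ → X) (w y : X) : Def (fun σ : X → List A => NE σ f w y) :=
  ((((Def.eq2 _ _ _).and (Def.eq2 _ _ _)).and ((Def.last _ _ _).and (Def.first _ _ _))).and
    (Def.eq2 _ _ _))

lemma NE.ne {σ : X → List A} {f : ℕ → X} {w y : X} (h : NE σ f w y) (hw : σ w ≠ []) :
    σ y ≠ [] := by
  obtain ⟨⟨⟨h1, h2⟩, h3, h4⟩, h5⟩ := h
  have h6 := h3.ne hw
  have h7 : σ (f 1) ≠ [] := by
    rw [h2]; intro h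
    exact h6 (List.append_eq_nil_iff.1 h).2
  have h8 := h4.ne h7
  rw [h5]; intro h
  exact h8 (List.append_eq_nil_iff.1 h).1

open Classical in
/-- The values of the auxiliary variables of `NE`. -/
noncomputable def nval (u s : List A) (k : ℕ) : List A :=
  if k < 10 then
    match k with
    | 0 => u.takeWhile (fun x => [x] ≠ s.take 1)
    | 1 => u.dropWhile (fun x => [x] ≠ s.take 1)
    | 2 => (u.dropWhile (fun x => [x] ≠ s.take 1)).take
        ((u.dropWhile (fun x => [x] ≠ s.take 1)).length - 1)
    | 3 => u.drop (u.length - 1)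
    | 4 => s.take 1
    | 5 => s.drop 1
    | _ => []
  else if k < 20 then fval (u.dropWhile (fun x => [x] ≠ s.take 1)) (k - 10)
  else lval u (k - 20)

lemma nval_infix {u s : List A} (hs : s <:+: u) (k : ℕ) : nval u s k <:+: u := by
  unfold nval
  split_ifs
  · split
    · exact (List.takeWhile_prefix _).isInfix
    · exact (List.dropWhile_suffix _).isInfix
    · exact (List.take_prefix _ _).isInfix.trans (List.dropWhile_suffix _).isInfix
    · exact (List.drop_suffix _ _).isInfix
    · exact (List.take_prefix _ _).isInfix.trans hs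
    · exact (List.drop_suffix _ _).isInfix.trans hs
    · exact List.nil_infix
  · exact (fval_infix _ _).trans (List.dropWhile_suffix _).isInfix
  · exact lval_infix _ _

lemma ne_of_nval {σ : X → List A} {f : ℕ → X} {w y : X}
    (h : ∀ k, σ (f k) = nval (σ w) (σ y) k) (hy : σ y <:+: σ w) (h0 : σ y ≠ [] ∨ σ w = []) :
    NE σ f w y := by
  classical
  set u := σ w with hu
  set s := σ y with hs
  set T := u.dropWhile (fun x => [x] ≠ s.take 1) with hT
  set P := u.takeWhile (fun x => [x] ≠ s.take 1) with hP
  have e0 : σ (f 0) = P := by rw [h]; rfl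
  have e1 : σ (f 1) = T := by rw [h]; rfl
  have e2 : σ (f 2) = T.take (T.length - 1) := by rw [h]; rfl
  have e3 : σ (f 3) = u.drop (u.length - 1) := by rw [h]; rfl
  have e4 : σ (f 4) = s.take 1 := by rw [h]; rfl
  have e5 : σ (f 5) = s.drop 1 := by rw [h]; rfl
  have huPT : u = P ++ T := (List.takeWhile_append_dropWhile).symm
  have key : T = T.take (T.length - 1) ++ u.drop (u.length - 1) ∧ T.take 1 = s.take 1 := by
    rcases h0 with h0 | h0
    · obtain ⟨c, s', hcs⟩ := List.exists_cons_of_ne_nil h0
      have hc : c ∈ u := hy.subset (by rw [hcs]; simp)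
      have h1 : s.take 1 = [c] := by rw [hcs]; rfl
      have h2 : T ≠ [] := by
        intro h3
        have := List.dropWhile_eq_nil_iff.1 h3 c hc
        simp [h1] at this
      have h3 : T.head h2 = c := by
        have := List.head_dropWhile_not (p := fun x => decide ([x] ≠ s.take 1)) (l := u) h2
        change decide ([T.head h2] ≠ s.take 1) = false at this
        rw [h1] at this
        simpa using this
      constructor
      · have h4 : u.drop (u.length - 1) = T.drop (T.length - 1) := by
          have h5 : 0 < T.length := List.length_pos_iff.2 h2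
          conv_lhs => rw [huPT]
          rw [List.length_append, show P.length + T.length - 1 = P.length + (T.length - 1) by omega,
            List.drop_append]
          simp
        rw [h4]; exact (List.take_append_drop _ _).symm
      · rw [h1]
        obtain ⟨d, T', hd⟩ := List.exists_cons_of_ne_nil h2
        have : d = c := by rw [← h3]; simp [hd]
        rw [hd, this]; rfl
    · have h1 : T = [] := by rw [hT, h0]; rfl
      have h2 : s = [] := by
        rw [h0] at hy
        exact List.infix_nil.1 hy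
      rw [h1, h2, h0]; simp
  refine ⟨⟨⟨?_, ?_⟩, ?_, ?_⟩, ?_⟩
  · rw [e0, e1]; exact huPT
  · rw [e1, e2, e3]; exact key.1
  · refine last_of_lval (fun k _ => ?_) e3
    rw [h]
    unfold nval
    rw [if_neg (by omega), if_neg (by omega), Nat.add_sub_cancel_left]
  · refine first_of_fval (fun k hk => ?_) ?_
    · rw [h]
      unfold nval
      rw [if_neg (by omega), if_pos (by omega), Nat.add_sub_cancel_left, e1]
    · rw [e1, e4]; exact key.2.symm
  · rw [e4, e5]; exact (List.take_append_drop 1 s).symm

/-! ### The query for the union -/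

/-- The variables of the new query: the universe variable, the selector variable, the unit
variables of the two sides, and for each side the variables and constants of the old query
together with their auxiliary variables. -/
abbrev V (A : Type) : Type := (Unit ⊕ Unit) ⊕ ((Bool × ℕ) ⊕ (Bool × (ℕ ⊕ A) × Option ℕ))

/-- the universe variable -/
def vW : V A := .inl (.inl ())
/-- the selector variable -/
def vZ : V A := .inl (.inr ())
/-- the unit variables -/
def vU (b : Bool) (k : ℕ) : V A := .inr (.inl (b, k))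
/-- the copies of the old variables and constants -/
def vr (b : Bool) (y : ℕ ⊕ A) : V A := .inr (.inr (b, y, none))
/-- the auxiliary variables -/
def gr (b : Bool) (y : ℕ ⊕ A) (k : ℕ) : V A := .inr (.inr (b, y, some k))

/-- Translation of letters and variables. -/
def tr (b : Bool) : A ⊕ ℕ → A ⊕ V A
  | .inl c => .inr (vr b (.inr c))
  | .inr n => .inr (vr b (.inl n))

/-- The condition on the copy of a constant. -/
def Cst (b : Bool) (σ : V A → List A) : A ⊕ ℕ → Prop
  | .inl c => (σ (vr b (.inr c)) ∈ ({[], [c]} : Set (List A))) ∧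
      NE σ (gr b (.inr c)) (vr b (.inl 0)) (vr b (.inr c))
  | .inr _ => True

/-- The condition on a variable with a regular constraint. -/
def RegC (b : Bool) (σ : V A → List A) (p : ℕ × Language A) : Prop :=
  σ (vr b (.inl p.1)) ∈ p.2 + 1 ∧
    ([] ∉ p.2 → NE σ (gr b (.inl p.1)) (vr b (.inl 0)) (vr b (.inl p.1)))

/-- The translation of the old query. -/
def Side (b : Bool) (φ : CQ A ℕ) (σ : V A → List A) : Prop :=
  ((∀ p ∈ φ.eqs, σ (vr b (.inl p.1)) = ev σ (p.2.map (tr b))) ∧
    (∀ p ∈ φ.eqs, ∀ z ∈ p.2, Cst b σ z)) ∧ ∀ p ∈ φ.regs, RegC b σ p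

lemma regular_of_finite {S : Set (List A)} (hS : S.Finite) :
    Language.IsRegular (show Language A from S) := by
  refine Language.IsRegular.of_finite_range_leftQuotient ?_
  have hT : {y : List A | ∃ x, x ++ y ∈ S}.Finite := by
    have h1 : {y : List A | ∃ x, x ++ y ∈ S} ⊆ ⋃ w ∈ S, {y | y ∈ w.tails} := by
      rintro y ⟨x, hx⟩
      simp only [Set.mem_iUnion]
      exact ⟨x ++ y, hx, by simp [List.mem_tails]⟩
    exact (hS.biUnion fun w _ => w.tails.finite_toSet).subset h1
  refine hT.finite_subsets.subset ?_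
  rintro _ ⟨x, rfl⟩
  intro y hy
  exact ⟨x, hy⟩

lemma reg_one : (1 : Language A).IsRegular := regular_of_finite (Set.finite_singleton [])

lemma def_side (b : Bool) (φ : CQ A ℕ) : Def (fun σ : V A → List A => Side b φ σ) := by
  classical
  refine ((Def.list (P := fun p σ => σ (vr b (.inl p.1)) = ev σ (p.2.map (tr b))) φ.eqs
    (fun p _ => Def.eq _ _)).and (Def.list (P := fun p σ => ∀ z ∈ p.2, Cst b σ z) φ.eqs
    (fun p _ => Def.list (P := fun z σ => Cst b σ z) p.2 fun z _ => ?_))).and
    (Def.list (P := fun p σ => RegC b σ p) φ.regs fun p hp => ?_)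
  · rcases z with c | n
    · exact (Def.reg _ _ (regular_of_finite (S := {[], [c]}) (by simp))).and (Def.ne _ _ _)
    · exact Def.top
  · by_cases h : [] ∈ p.2
    · refine (Def.reg (vr b (.inl p.1)) (p.2 + 1) ((φ.regular p hp).add reg_one)).congr
        fun σ => ?_
      exact ⟨fun h1 => ⟨h1, fun h2 => absurd h h2⟩, fun h1 => h1.1⟩
    · refine ((Def.reg (vr b (.inl p.1)) (p.2 + 1) ((φ.regular p hp).add reg_one)).and
        (Def.ne (gr b (.inl p.1)) (vr b (.inl 0)) (vr b (.inl p.1)))).congr fun σ => ?_
      exact ⟨fun h1 => ⟨h1.1, fun _ => h1.2⟩, fun h1 => ⟨h1.1, h1.2 h⟩⟩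

/-- The translated query is correct on the selected side. -/
lemma side_sound {b : Bool} {φ : CQ A ℕ} {σ : V A → List A} (h : Side b φ σ)
    (hw : σ (vr b (.inl 0)) ≠ []) : φ.Holds (fun n => σ (vr b (.inl n))) := by
  obtain ⟨⟨h1, h2⟩, h3⟩ := h
  constructor
  · intro p hp
    change σ (vr b (.inl p.1)) = _
    rw [h1 p hp]
    have h4 := h2 p hp
    simp only [ev, List.flatMap_map]
    refine List.flatMap_congr fun z hz => ?_
    have h5 := h4 z hz
    rcases z with c | n
    · have h6 := h5.2.ne hw
      rcases h5.1 with h7 | h7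
      · exact absurd h7 h6
      · exact h7
    · rfl
  · intro p hp
    obtain ⟨h4, h5⟩ := h3 p hp
    by_cases h : [] ∈ p.2
    · rcases h4 with h6 | h6
      · exact h6
      · have : σ (vr b (.inl p.1)) = [] := h6
        change σ (vr b (.inl p.1)) ∈ p.2
        rw [this]; exact h
    · rcases h4 with h6 | h6
      · exact h6
      · exact absurd h6 ((h5 h).ne hw)

open Classical in
/-- The translated query can be satisfied. -/
lemma side_complete {b : Bool} {φ : CQ A ℕ} {σ : V A → List A} (τ : ℕ → List A)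
    (hv : ∀ n, σ (vr b (.inl n)) = τ n)
    (hc : ∀ c, σ (vr b (.inr c)) = if c ∈ τ 0 then [c] else [])
    (hg : ∀ y k, σ (gr b y k) = nval (τ 0) (σ (vr b y)) k) (hsafe : ∀ n, τ n <:+: τ 0)
    (h : φ.Holds τ ∨ τ 0 = []) : Side b φ σ := by
  have hc' : ∀ c, σ (vr b (.inr c)) <:+: τ 0 := by
    intro c
    rw [hc]
    split_ifs with h1
    · obtain ⟨s, t, h2⟩ := List.append_of_mem h1
      exact ⟨s, t, by rw [h2]; simp⟩
    · exact List.nil_infix
  refine ⟨⟨fun p hp => ?_, fun p hp z hz => ?_⟩, fun p hp => ?_⟩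
  · rcases h with h | h
    · rw [hv, h.1 p hp]
      simp only [ev, List.flatMap_map]
      refine List.flatMap_congr fun z hz => ?_
      rcases z with c | n
      · have h2 : c ∈ τ 0 := by
          refine (hsafe p.1).subset ?_
          rw [h.1 p hp]
          simp only [ev, List.mem_flatMap]
          exact ⟨_, hz, by simp⟩
        change [c] = σ (vr b (.inr c))
        rw [hc, if_pos h2]
      · exact (hv n).symm
    · have h1 : ∀ n, τ n = [] := fun n => by
        have := hsafe n
        rw [h] at this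
        exact List.infix_nil.1 this
      rw [hv, h1]
      symm
      simp only [ev, List.flatMap_map]
      rw [List.flatMap_eq_nil_iff]
      intro z hz
      rcases z with c | n
      · change σ (vr b (.inr c)) = []
        rw [hc, if_neg (by rw [h]; simp)]
      · change σ (vr b (.inl n)) = []
        rw [hv, h1]
  · rcases z with c | n
    · have h1 : c ∈ τ 0 ∨ τ 0 = [] := by
        rcases h with h | h
        · left
          refine (hsafe p.1).subset ?_
          rw [h.1 p hp]
          simp only [ev, List.mem_flatMap]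
          exact ⟨_, hz, by simp⟩
        · exact Or.inr h
      refine ⟨?_, ne_of_nval (fun k => ?_) ?_ ?_⟩
      · rw [hc]
        split_ifs
        · exact Or.inr rfl
        · exact Or.inl rfl
      · rw [hg, hv]
      · rw [hv]; exact hc' c
      · rcases h1 with h1 | h1
        · left; rw [hc, if_pos h1]; simp
        · right; rw [hv]; exact h1
    · trivial
  · refine ⟨?_, fun h1 => ne_of_nval (fun k => ?_) ?_ ?_⟩
    · rw [hv]
      rcases h with h | h
      · exact Or.inl (h.2 p hp)
      · right
        have := hsafe p.1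
        rw [h] at this
        exact List.infix_nil.1 this
    · rw [hg, hv, hv]
    · rw [hv, hv]; exact hsafe _
    · rw [hv, hv]
      rcases h with h | h
      · left
        intro h2
        have := h.2 p hp
        rw [h2] at this
        exact h1 this
      · exact Or.inr h

/-- The condition defining the union. -/
def Total (φ : Bool → CQ A ℕ) (E : Prop) (σ : V A → List A) : Prop :=
  (((σ vW = σ (vr true (.inl 0)) ++ σ (vr false (.inl 0)) ∧
      σ vZ = σ (vU true 6) ++ σ (vU false 6)) ∧ σ vZ ∈ Le1 A) ∧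
    ((First σ (vU true) (vr true (.inl 0)) (vU true 6) ∧
      First σ (vU false) (vr false (.inl 0)) (vU false 6)) ∧
      (Side true (φ true) σ ∧ Side false (φ false) σ))) ∧ (E → σ vW ∈ (1 : Language A)ᶜ)

lemma def_total (φ : Bool → CQ A ℕ) (E : Prop) : Def (fun σ : V A → List A => Total φ E σ) := by
  refine ((((Def.eq2 _ _ _).and (Def.eq2 _ _ _)).and (Def.reg _ _ reg_Le1)).and
    (((Def.first _ _ _).and (Def.first _ _ _)).and ((def_side _ _).and (def_side _ _)))).and ?_
  by_cases hE : E
  · exact (Def.reg vW _ reg_one.compl).congr fun σ => ⟨fun h _ => h, fun h => h hE⟩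
  · exact Def.top.congr fun σ => ⟨fun _ h => absurd h hE, fun _ => trivial⟩

open Classical in
lemma total_lang (φ : Bool → CQ A ℕ) :
    {u | ∃ σ : V A → List A, σ vW = u ∧ Safe vW σ ∧
      Total φ ([] ∉ (φ true).lang 0 ∪ (φ false).lang 0) σ} =
    (φ true).lang 0 ∪ (φ false).lang 0 := by
  ext u
  constructor
  · rintro ⟨σ, rfl, hs, ⟨⟨⟨h1, h2⟩, h3⟩, ⟨h4, h5⟩, h6, h7⟩, h8⟩
    by_cases hu : σ vW = []
    · by_contra h9
      rw [hu] at h9
      exact h8 h9 hu
    · have hlen : (σ (vU true 6)).length + (σ (vU false 6)).length ≤ 1 := by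
        have : (σ vZ).length ≤ 1 := h3
        rwa [h2, List.length_append] at this
      have fin : ∀ b, σ (vr b (.inl 0)) = σ vW → Side b (φ b) σ → σ vW ∈ (φ b).lang 0 := by
        intro b hb hside
        refine ⟨fun n => σ (vr b (.inl n)), hb, fun n => ?_, side_sound hside ?_⟩
        · change _ <:+: σ (vr b (.inl 0))
          rw [hb]; exact hs _
        · rw [hb]; exact hu
      by_cases h9 : σ (vr true (.inl 0)) = []
      · right
        refine fin false ?_ h7
        rw [h1, h9]; rfl
      · left
        have h10 := List.length_pos_iff.2 (h4.ne h9)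
        have h11 : σ (vr false (.inl 0)) = [] := by
          by_contra h12
          have := List.length_pos_iff.2 (h5.ne h12)
          omega
        refine fin true ?_ h6
        rw [h1, h11]; simp
  · intro hu
    obtain ⟨b, σ', h0, hsafe, hholds⟩ : ∃ b, u ∈ (φ b).lang 0 := by
      rcases hu with h | h
      · exact ⟨true, h⟩
      · exact ⟨false, h⟩
    set τ : Bool → ℕ → List A := fun b' => if b' = b then σ' else fun _ => [] with hτ
    have hτb : τ b = σ' := if_pos rfl
    have hτn : ∀ b', b' ≠ b → τ b' = fun _ => [] := fun b' h => if_neg h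
    have hτs : ∀ b' n, τ b' n <:+: τ b' 0 := by
      intro b' n
      by_cases h : b' = b
      · rw [h, hτb]; exact hsafe n
      · rw [hτn b' h]
    have hτu : ∀ b', τ b' 0 <:+: u := by
      intro b'
      by_cases h : b' = b
      · rw [h, hτb, h0]
      · rw [hτn b' h]; exact List.nil_infix
    set sv : Bool → ℕ ⊕ A → List A := fun b' =>
      Sum.elim (τ b') (fun c => if c ∈ τ b' 0 then [c] else []) with hsv
    have hsvu : ∀ b' y, sv b' y <:+: τ b' 0 := by
      intro b' y
      rcases y with n | c
      · exact hτs b' n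
      · change (if c ∈ τ b' 0 then [c] else []) <:+: _
        split_ifs with h1
        · obtain ⟨s, t, h2⟩ := List.append_of_mem h1
          exact ⟨s, t, by rw [h2]; simp⟩
        · exact List.nil_infix
    let σ : V A → List A := fun x => match x with
      | .inl (.inl _) => u
      | .inl (.inr _) => (τ true 0).take 1 ++ (τ false 0).take 1
      | .inr (.inl (b', k)) => if k = 6 then (τ b' 0).take 1 else fval (τ b' 0) k
      | .inr (.inr (b', y, none)) => sv b' y
      | .inr (.inr (b', y, some k)) => nval (τ b' 0) (sv b' y) k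
    have hside : ∀ b', Side b' (φ b') σ := by
      intro b'
      refine side_complete (τ b') (fun n => rfl) (fun c => rfl) (fun y k => rfl) (hτs b') ?_
      by_cases h : b' = b
      · subst h; rw [hτb]; exact Or.inl hholds
      · right; rw [hτn b' h]
    have hfirst : ∀ b', First σ (vU b') (vr b' (.inl 0)) (vU b' 6) := by
      intro b'
      refine first_of_fval (fun k hk => ?_) rfl
      change (if k = 6 then _ else _) = _
      rw [if_neg (by omega)]
      rfl
    have hsplit : u = τ true 0 ++ τ false 0 := by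
      cases b with
      | true => rw [hτb, hτn false (by decide), h0]; simp
      | false => rw [hτb, hτn true (by decide), h0]; simp
    have hZ : (τ true 0).take 1 ++ (τ false 0).take 1 = u.take 1 := by
      cases b with
      | true => rw [hτb, hτn false (by decide), h0]; simp
      | false => rw [hτb, hτn true (by decide), h0]; simp
    refine ⟨σ, rfl, ?_, ⟨⟨⟨hsplit, rfl⟩, ?_⟩, ⟨hfirst true, hfirst false⟩, hside true,
      hside false⟩, fun h => ?_⟩
    · rintro ((_ | _) | (⟨b', k⟩ | ⟨b', y, _ | k⟩))
      · exact List.infix_refl _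
      · change (τ true 0).take 1 ++ (τ false 0).take 1 <:+: u
        rw [hZ]; exact (List.take_prefix _ _).isInfix
      · change (if k = 6 then (τ b' 0).take 1 else fval (τ b' 0) k) <:+: u
        split_ifs
        · exact (List.take_prefix _ _).isInfix.trans (hτu b')
        · exact (fval_infix _ _).trans (hτu b')
      · exact (hsvu b' y).trans (hτu b')
      · exact (nval_infix (hsvu b' y) k).trans (hτu b')
    · change (_ : List A).length ≤ 1
      change ((τ true 0).take 1 ++ (τ false 0).take 1).length ≤ 1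
      rw [hZ]; simp
    · intro h1
      have h2 : u = [] := h1
      rw [h2] at hu
      exact h hu

/-- Two conjunctive queries. -/
theorem union_cq [Finite A] (φ ψ : CQ A ℕ) :
    ∃ χ : CQ A ℕ, χ.lang 0 = φ.lang 0 ∪ ψ.lang 0 := by
  obtain ⟨χ, hχ⟩ := (def_total (fun b => if b then φ else ψ)
    ([] ∉ φ.lang 0 ∪ ψ.lang 0)).exists_cq
  have h1 : χ.lang vW = φ.lang 0 ∪ ψ.lang 0 := by
    have h2 := total_lang (fun b => if b then φ else ψ)
    refine Eq.trans ?_ h2
    simp only [CQ.lang, hχ]
    rfl
  have : Infinite (V A) := Infinite.of_injective (fun n : ℕ => vU true n) (by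
    intro m n h
    simpa [vU] using h)
  obtain ⟨e⟩ := nonempty_equiv_of_countable (α := V A) (β := ℕ)
  obtain ⟨χ', hχ'⟩ := rename (e.trans (Equiv.swap (e vW) 0)) vW χ
  refine ⟨χ', ?_⟩
  rw [← h1, ← hχ']
  simp

/-- The languages of FC[REG]-CQs over the alphabet `A` (variables are natural numbers, `0` is the
universe variable). -/
def CQLang (A : Type) : Set (Set (List A)) := {L | ∃ φ : CQ A ℕ, L = φ.lang 0}

/-- The languages of FC[REG]-UCQs: finite disjunctions of FC[REG]-CQs. -/
def UCQLang (A : Type) : Set (Set (List A)) :=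
  {L | ∃ l : List (CQ A ℕ), l ≠ [] ∧ L = {u | ∃ φ ∈ l, u ∈ φ.lang 0}}

/-- **Main theorem.** -/
theorem result (A : Type) [Finite A] :
    CQLang A = UCQLang A ∧ ∀ L₁ ∈ CQLang A, ∀ L₂ ∈ CQLang A, L₁ ∪ L₂ ∈ CQLang A := by
  have hun : ∀ L₁ ∈ CQLang A, ∀ L₂ ∈ CQLang A, L₁ ∪ L₂ ∈ CQLang A := by
    rintro _ ⟨φ, rfl⟩ _ ⟨ψ, rfl⟩
    obtain ⟨χ, hχ⟩ := union_cq φ ψ
    exact ⟨χ, hχ.symm⟩
  refine ⟨Set.Subset.antisymm ?_ ?_, hun⟩
  · rintro _ ⟨φ, rfl⟩
    exact ⟨[φ], by simp, by ext u; simp⟩
  · rintro _ ⟨l, hl, rfl⟩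
    induction l with
    | nil => exact absurd rfl hl
    | cons φ l ih =>
      by_cases h : l = []
      · subst h
        exact ⟨φ, by ext u; simp⟩
      · have h1 := hun _ ⟨φ, rfl⟩ _ (ih h)
        convert h1 using 1
        ext u
        simp

end Pool.Agent.Results.MP_c07d1e_lc.UnionClosed
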